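import Pool.Agent.Hhelper30.FracLow.Sup

/-!
# MP_fc334d_co: subgroup codes in dimensions one to four

The exact values of `p / q` from which on subgroups of the `n`-th strong power of `E_{a/b}`,
`a / b = p / q`, can have more than `2 ^ n` elements, `n ≤ 4`; in dimension four general
independent sets have more than `16` elements already from `7 / 3` on.
-/

namespace Pool.Agent.Results.MP_fc334d_co.FourDimensions

/-- The sizes of the independent sets of the `n`-th strong power of `E_{p/q}`. -/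
def Sizes (n p q : ℕ) : Set ℕ :=
  {k : ℕ | ∃ S : Finset (Fin n → ZMod p), S.card = k ∧
    ∀ x ∈ S, ∀ y ∈ S, x ≠ y → ∃ i, q ≤ (x i - y i).val ∧ q ≤ (y i - x i).val}

/-- The sizes of the independent subgroups of the `n`-th strong power of `E_{a/b}`, for all
representations `a / b` of `p / q`. -/
def GrpSizes (n p q : ℕ) : Set ℕ :=
  {k : ℕ | ∃ a b : ℕ, 0 < b ∧ a * q = b * p ∧ ∃ H : AddSubgroup (Fin n → ZMod a),
    Nat.card H = k ∧ ∀ x ∈ H, x ≠ 0 → ∃ i, b ≤ (x i).val ∧ b ≤ (-x i).val}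

open Pool.Agent.Hhelper30.FracLow in
theorem ten_grp : 10 ∈ GrpSizes 3 5 2 := by
  obtain ⟨H, h1, h2⟩ := cyclic_mem (n := 3) (N := 10) (b := 4) (p := 1) (by norm_num) one_pos
    ![1, 2, 5] 0 rfl (by decide +kernel)
  exact ⟨10 * 1, 4, by norm_num, by norm_num, H, h1, h2⟩

open Pool.Agent.Hhelper30.FracLow in
theorem three_grp : 3 ∈ GrpSizes 1 3 1 := by
  obtain ⟨H, h1, h2⟩ := cyclic_mem (n := 1) (N := 3) (b := 1) (p := 1) (by norm_num) one_pos
    (fun _ => 1) 0 rfl (by decide +kernel)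
  exact ⟨3 * 1, 1, by norm_num, by norm_num, H, h1, h2⟩

open Pool.Agent.Hhelper30.FracLow in
/-- **Dimensions one to four.** -/
theorem result (p q : ℕ) (hq : 0 < q) (hpq : 2 * q ≤ p) :
    ((∃ k ∈ GrpSizes 1 p q, 2 < k) ↔ 3 * q ≤ p) ∧
    ((∃ k ∈ GrpSizes 2 p q, 4 < k) ↔ 5 * q ≤ 2 * p) ∧
    ((∃ k ∈ GrpSizes 3 p q, 8 < k) ↔ 5 * q ≤ 2 * p) ∧
    ((∃ k ∈ GrpSizes 4 p q, 16 < k) ↔ 17 * q ≤ 7 * p) ∧
    (7 * q ≤ 3 * p → ∃ k ∈ Sizes 4 p q, 16 < k) := by
  refine ⟨⟨?_, ?_⟩, ⟨?_, ?_⟩, ⟨?_, ?_⟩, ⟨?_, ?_⟩, ?_⟩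
  · rintro ⟨k, ⟨a, b, hb, hab, H, rfl, hH⟩, hk⟩
    obtain ⟨ha, -⟩ := repr_pos hb hq hpq hab
    have : NeZero a := ⟨ha.ne'⟩
    have h1 := sizes_le_one hb hq hpq hab _ (grp_sizes hH)
    exact (Nat.le_div_iff_mul_le hq).1 (by omega : 3 ≤ p / q)
  · intro h
    exact ⟨3, grpSizes_mono one_pos (by norm_num) hq (by omega) three_grp, by norm_num⟩
  · rintro ⟨k, hk, hk2⟩
    by_contra hcon
    have h1 := (isGreatest_two_pow (n := 2) hq hpq (by omega)).2 hk
    omega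
  · intro h
    exact ⟨5, grpSizes_mono (p := 5) (q := 2) (by norm_num) (by norm_num) hq (by omega)
      (plane_mem (p := 5) (q := 2) (by norm_num) (by norm_num)), by norm_num⟩
  · rintro ⟨k, hk, hk2⟩
    by_contra hcon
    have h1 := (space hq hpq (by omega)).2 hk
    omega
  · intro h
    exact ⟨10, grpSizes_mono (p := 5) (q := 2) (by norm_num) (by norm_num) hq (by omega)
      ten_grp, by norm_num⟩
  · rintro ⟨k, hk, hk2⟩
    by_contra hcon
    have h1 := (four hq hpq (by omega)).2 hk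
    omega
  · intro h
    exact ⟨17, grpSizes_mono (p := 17) (q := 7) (by norm_num) (by norm_num) hq (by omega)
      seventeen_grp, by norm_num⟩
  · intro h
    exact ⟨17, seventeen_le hq h, by norm_num⟩

end Pool.Agent.Results.MP_fc334d_co.FourDimensions
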