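import Pool.Agent.Hhelper30.FracLow.Low

/-!
# MP_fc334d_co: subgroup codes restricted to few coordinates

Let `a / b = p / q ≥ 2` and let `H` be an independent subgroup of the `n`-th strong power of
`E_{a/b}` (any representation, any dimension). If `|S| (p / q - 2) < 1`, the elements of `H`
supported on the set `S` of coordinates form a group whose order divides `2 ^ |S|`.
-/

namespace Pool.Agent.Results.MP_fc334d_co.SmallSupport

open Pool.Agent.Hhelper30.FracLow

/-- **Small supports.** -/
theorem result (p q a b n : ℕ) (hq : 0 < q) (hpq : 2 * q ≤ p) (hb : 0 < b)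
    (hab : a * q = b * p) (H : AddSubgroup (Fin n → ZMod a))
    (hH : ∀ x ∈ H, x ≠ 0 → ∃ i, b ≤ (x i).val ∧ b ≤ (-x i).val)
    (S : Finset (Fin n)) (hS : (S.card : ℝ) * ((p : ℝ) / q - 2) < 1) :
    Nat.card {x : Fin n → ZMod a // x ∈ H ∧ ∀ i, i ∉ S → x i = 0} ∣ 2 ^ S.card := by
  have hp : 0 < p := by omega
  have ha : 0 < a := by
    rcases Nat.eq_zero_or_pos a with h0 | h0
    · rw [h0, zero_mul] at hab
      have := Nat.mul_pos hb hp
      omega
    · exact h0
  have : NeZero a := ⟨ha.ne'⟩
  have hS' : S.card * (p - 2 * q) < q := by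
    have hq' : (0 : ℝ) < q := by exact_mod_cast hq
    have h1 : (S.card : ℝ) * ((p : ℝ) - 2 * q) < q := by
      have h2 : (S.card : ℝ) * ((p : ℝ) / q - 2) * q < 1 * q := by
        exact mul_lt_mul_of_pos_right hS hq'
      have h3 : (S.card : ℝ) * ((p : ℝ) / q - 2) * q = (S.card : ℝ) * ((p : ℝ) - 2 * q) := by
        field_simp
      rw [h3, one_mul] at h2
      exact h2
    have h4 : ((S.card * (p - 2 * q) : ℕ) : ℝ) < q := by
      rw [Nat.cast_mul, Nat.cast_sub hpq]
      push_cast
      exact h1
    exact_mod_cast h4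
  exact card_part_dvd hb hq hpq hab hH hS'

end Pool.Agent.Results.MP_fc334d_co.SmallSupport
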